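import Pool.Agent.H497_Nb.Fin

/-!
# The chemical distance between neighbours in critical bond percolation: moments and tail

Critical bond percolation on `ℤ²`, conditioned on the event that the neighbours `(0,0)` and `(1,0)`
are joined by an open path; `chem` is the number of edges of a shortest open path between them
(the least number of edges of a geodesic of the first-passage percolation of the problem).

(1) The conditional probability that they are not joined inside of the box `[-n, n]²` is of order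
`n ^ (-5/4)`.
(2) The conditional probability of `chem ≥ n` is at least of order `n ^ (-5/4)` and at most of order
`n ^ (-5/8)`.
(3) The conditional moments of `chem` of order `q < 5/8` are finite.
(4) The conditional moments of `chem` of order `q ≥ 5/4` are infinite.

The question is about the moment of order `1`; known were the divergence of the second moment and an
upper bound of the tail with some (unknown, positive) exponent (Damron, Hanson, Sosoe).

Proof: joined, but not in the box of radius `n`: then the edge between the neighbours has four arms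
(Kesten), an event with probability of order `n ^ (-5/4)` (starting file
`Pool/Agent/H988R6/Four.lean`); conversely given the four arms up to the distance `3 (n + 1)` the
circuit around the box of radius `n`, which joins the two open arms, has a conditional probability
bounded below, by the inequality of Harris for the edges outside of the box of radius `n`.
-/

set_option autoImplicit false

open MeasureTheory
open scoped ENNReal

namespace Pool.Agent.Results.MP_a739c9_pr.NeighbourMoments

/-- The square lattice: two points of `ℤ²` are adjacent when they differ by one in exactly one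
coordinate. -/
def Z2 : SimpleGraph (ℤ × ℤ) where
  Adj u v := |u.1 - v.1| + |u.2 - v.2| = 1
  symm := ⟨fun u v h => by rw [abs_sub_comm v.1, abs_sub_comm v.2]; exact h⟩
  loopless := ⟨fun u h => by simp at h⟩

/-- Critical bond percolation: every edge of the square lattice is open (`true`) with
probability `1/2`, independently of the other edges. -/
noncomputable def crit : Measure (Z2.edgeSet → Bool) :=
  Measure.infinitePi (fun _ => ProbabilityTheory.bernoulliMeasure true false
    ⟨1/2, by norm_num, by norm_num⟩)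

/-- The graph of the open edges. -/
def openGraph (ω : Z2.edgeSet → Bool) : SimpleGraph (ℤ × ℤ) :=
  SimpleGraph.fromEdgeSet {e | ∃ h : e ∈ Z2.edgeSet, ω ⟨e, h⟩ = true}

/-- The graph of the open edges with both ends in the box `[-n, n]²`. -/
def openBox (n : ℕ) (ω : Z2.edgeSet → Bool) : SimpleGraph (ℤ × ℤ) :=
  SimpleGraph.fromEdgeSet {e | (∃ h : e ∈ Z2.edgeSet, ω ⟨e, h⟩ = true) ∧
    ∀ v ∈ e, max |v.1| |v.2| ≤ n}

/-- The neighbours `(0,0)` and `(1,0)` are joined by an open path. -/
def joined : Set (Z2.edgeSet → Bool) := {ω | (openGraph ω).Reachable (0, 0) (1, 0)}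

/-- Critical percolation conditioned on the event that `(0,0)` and `(1,0)` are joined. -/
noncomputable def critJoined : Measure (Z2.edgeSet → Bool) := ProbabilityTheory.cond crit joined

/-- The chemical distance: the number of edges of a shortest open path from `(0,0)` to `(1,0)`
(`0` if they are not joined). -/
noncomputable def chem (ω : Z2.edgeSet → Bool) : ℕ := (openGraph ω).dist (0, 0) (1, 0)

open H974 H12S in
theorem openBox_adj (n : ℕ) (ω : Z2.edgeSet → Bool) (u v : ℤ × ℤ) :
    (openBox n ω).Adj u v ↔ H974.Adj ((opn ω) ∩ ↑(RE (-(n:ℤ)) n (-n) n)) u v := by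
  have inbox : ∀ e : Edg, e ∈ RE (-(n:ℤ)) n (-n) n ↔
      (max |(src e).1| |(src e).2| ≤ (n:ℤ) ∧ max |(tgt e).1| |(tgt e).2| ≤ (n:ℤ)) := by
    rintro ⟨x, y, _ | _⟩
    · rw [mem_RE_false, src_mk, tgt_false]
      simp only [max_le_iff, abs_le]
      omega
    · rw [mem_RE_true, src_mk, tgt_true]
      simp only [max_le_iff, abs_le]
      omega
  have inb2 : ∀ a b : ℤ × ℤ, (∀ w ∈ s(a, b), max |w.1| |w.2| ≤ (n:ℤ)) ↔
      (max |a.1| |a.2| ≤ (n:ℤ) ∧ max |b.1| |b.2| ≤ (n:ℤ)) := by
    intro a b
    constructor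
    · intro h; exact ⟨h a (Sym2.mem_mk_left _ _), h b (Sym2.mem_mk_right _ _)⟩
    · rintro ⟨h1, h2⟩ w hw
      rcases Sym2.mem_iff.mp hw with rfl | rfl
      · exact h1
      · exact h2
  unfold openBox
  rw [SimpleGraph.fromEdgeSet_adj]
  constructor
  · rintro ⟨⟨⟨h, hω⟩, hbox⟩, -⟩
    obtain ⟨e, he⟩ := adj_edge (show sqLattice.Adj u v from (SimpleGraph.mem_edgeSet _).mp h)
    have hs : s(src e, tgt e) = s(u, v) := by
      rcases he with ⟨h1, h2⟩ | ⟨h1, h2⟩
      · rw [h1, h2]
      · rw [h1, h2]; exact Sym2.eq_swap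
    have ht : toE e = ⟨s(u, v), h⟩ := Subtype.ext hs
    refine ⟨e, ⟨?_, ?_⟩, he⟩
    · show ω (toE e) = true
      rw [ht]; exact hω
    · rw [Finset.mem_coe, inbox, ← inb2, hs]; exact hbox
  · rintro ⟨e, ⟨he, hb⟩, hcase⟩
    have hs : s(src e, tgt e) = s(u, v) := by
      rcases hcase with ⟨h1, h2⟩ | ⟨h1, h2⟩
      · rw [h1, h2]
      · rw [h1, h2]; exact Sym2.eq_swap
    refine ⟨?_, ?_⟩
    · show (∃ h : s(u, v) ∈ Z2.edgeSet, ω ⟨s(u, v), h⟩ = true) ∧
        ∀ w ∈ s(u, v), max |w.1| |w.2| ≤ (n:ℤ)
      rw [← hs]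
      refine ⟨⟨edge_mem e, he⟩, ?_⟩
      rw [inb2, ← inbox]; exact Finset.mem_coe.mp hb
    · rintro rfl
      exact Adj_irrefl (⟨e, he, hcase⟩ : H974.Adj (opn ω) u u)

open H974 in
theorem openBox_reach (n : ℕ) (ω : Z2.edgeSet → Bool) (u v : ℤ × ℤ) :
    (openBox n ω).Reachable u v ↔ Reach ((opn ω) ∩ ↑(RE (-(n:ℤ)) n (-n) n)) u v := by
  rw [SimpleGraph.reachable_iff_reflTransGen]
  have : (openBox n ω).Adj = H974.Adj ((opn ω) ∩ ↑(RE (-(n:ℤ)) n (-n) n)) := by
    funext u v
    exact propext (openBox_adj n ω u v)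
  rw [this]
  rfl

/-- **The chemical distance between neighbours of critical bond percolation on the square lattice.**
Given that `(0,0)` and `(1,0)` are joined:
(1) they are not joined inside of the box `[-n, n]²` with probability of order `n ^ (-5/4)`;
(2) the chemical distance is at least `n` with probability between `c n ^ (-5/4)` and
`C n ^ (-5/8)`;
(3) the moments of the chemical distance of order `q < 5/8` are finite;
(4) the moments of order `q ≥ 5/4` are infinite. -/
theorem result :
    (∃ c C : ℝ, 0 < c ∧ 0 < C ∧ ∀ n : ℕ, 1 ≤ n →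
      c * (n : ℝ) ^ (-(5 / 4) : ℝ) ≤ critJoined.real {ω | ¬ (openBox n ω).Reachable (0, 0) (1, 0)} ∧
      critJoined.real {ω | ¬ (openBox n ω).Reachable (0, 0) (1, 0)} ≤
        C * (n : ℝ) ^ (-(5 / 4) : ℝ)) ∧
    (∃ c C : ℝ, 0 < c ∧ 0 < C ∧ ∀ n : ℕ, 1 ≤ n →
      c * (n : ℝ) ^ (-(5 / 4) : ℝ) ≤ critJoined.real {ω | n ≤ chem ω} ∧
      critJoined.real {ω | n ≤ chem ω} ≤ C * (n : ℝ) ^ (-(5 / 8) : ℝ)) ∧
    (∀ q : ℝ, 0 ≤ q → q < 5 / 8 → ∫⁻ ω, (chem ω : ℝ≥0∞) ^ q ∂critJoined < ∞) ∧
    (∀ q : ℝ, 5 / 4 ≤ q → ∫⁻ ω, (chem ω : ℝ≥0∞) ^ q ∂critJoined = ∞) := by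
  refine ⟨?_, ?_, ?_, ?_⟩
  · obtain ⟨c, C, hc, hC, h⟩ := Pool.Agent.H497_Nb.diam_sharp
    refine ⟨c, C, hc, hC, fun n hn => ?_⟩
    have e : {ω : Z2.edgeSet → Bool | ¬ (openBox n ω).Reachable (0, 0) (1, 0)} =
        (Pool.Agent.H497_Nb.JB n)ᶜ := by
      ext ω
      exact not_congr (openBox_reach n ω _ _)
    rw [e]
    exact h n hn
  · obtain ⟨c, hc, h⟩ := Pool.Agent.H497_Nb.tail_low
    obtain ⟨C, hC, h'⟩ := Pool.Agent.H497_Nb.tail_up
    exact ⟨c, C, hc, hC, fun n hn => ⟨h n hn, h' n hn⟩⟩
  · intro q h0 hq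
    exact Pool.Agent.H497_Nb.cond_fin h0 hq
  · intro q hq
    exact Pool.Agent.H497_Nb.cond_top hq

end Pool.Agent.Results.MP_a739c9_pr.NeighbourMoments
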